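import Pool.Agent.X168.HA.Main

/-!
# An intrinsically harmonic two-form of mixed rank on `ℂP² # -ℂP²`

`M = ℂP² # -ℂP²` is formed with two copies of the disc `stdDisc 2 : v ↦ [v : 1]` of `ℂP²`, in which
`[v : 1]` of the first copy is identified with `[v / |v|² : 1]` of the second one. The first part
of the statement says that such closed four-manifolds exist. The second part says that every such
`M` carries a two-form `w` which is harmonic for some Riemannian metric, vanishes nowhere, is
nondegenerate (of rank `4`) at some point, and is degenerate (so of rank `2`) at some other point.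
This answers Q1 positively.

The form is `w = α + 4 β` and its Hodge dual is `⋆w = α - 4 β`. Here `α` is a `U(2)`-invariant
Kähler form and `β` is a closed anti-self-dual form; on `ℂ² ∖ {0}`, with `r = |v|²`,
`s = (1 + 3 r) / (1 + r)`, they are the differentials of `s θ` and `s⁻¹ θ`, where
`θ = om(v, ·) / 2 r` is the contact form of the spheres. The form `w` is degenerate exactly where
`s² = 4`, that is, for `r = 1`.
-/

set_option autoImplicit false

open Set
open scoped Manifold ContDiff

namespace Pool.Agent.Results.MP_dc226a_gt.MixedRank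

open Pool.Agent.X168.BU Pool.Agent.X168.HA

theorem result :
    (∃ (M : Type) (_ : TopologicalSpace M) (_ : ChartedSpace (V 2) M) (i j : CP 2 → M),
      IsClosedMfd 2 M ∧ IsConnectedSum (stdDisc 2) (stdDisc 2) i j) ∧
    ∀ (M : Type) [TopologicalSpace M] [ChartedSpace (V 2) M] (i j : CP 2 → M),
      IsConnectedSum (stdDisc 2) (stdDisc 2) i j →
      ∃ w : Form 2 M 2, IntrinsicallyHarmonic w ∧ (∀ x, ∃ u v, ev w x u v ≠ 0) ∧
        (∃ x, NondegAt w x) ∧ ∃ x, ¬ NondegAt w x := by
  refine ⟨?_, ?_⟩
  · have ha : Function.Injective (stdDisc 2) := aff_injective none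
    obtain ⟨i, j, hs⟩ := exists_setSum (by norm_num) ha ha
    obtain ⟨iT, iC, h1, h2, h3, h4⟩ := exists_sum (isOpenEmb_aff none) (isOpenEmb_aff none) hs
    exact ⟨_, iT, iC, i, j, ⟨h1, h2, h4 inferInstance inferInstance⟩, h3⟩
  · intro M _ _ i j h
    exact exists_harmonic h

end Pool.Agent.Results.MP_dc226a_gt.MixedRank
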